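import Pool.Agent.Work.MP_69fea5_lc.AC.Func

/-!
The Turing jump, its finite iterates, the omega jump, and uniformly arithmetical families.
-/

set_option autoImplicit false

namespace Pool.Agent.Work.MP_69fea5_lc.UP

open Encodable
open Nat.Partrec (Code)
open Pool.Agent.Work.MP_69fea5_lc.AC

/-- The jump of `A`: the `e` such that the `e`-th partial recursive function is defined at some
initial segment of `A`. -/
def jump (A : Set ℕ) : Set ℕ :=
  {e | ∃ ℓ, ((Denumerable.ofNat Code e).eval (encode (bits A ℓ))).Dom}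

/-- The finite iterates of the jump of the empty set. -/
def jumpN : ℕ → Set ℕ
  | 0 => ∅
  | n + 1 => jump (jumpN n)

/-- The omega jump of the empty set. -/
def omegaJump : Set ℕ := {x | x.unpair.2 ∈ jumpN x.unpair.1}

section

variable {α β γ δ : Type*} [Primcodable α] [Primcodable β] [Primcodable γ] [Primcodable δ]

theorem jump_code {ψ : α × List Bool →. ℕ} (hψ : Partrec ψ) :
    ∃ g : α → ℕ, Primrec g ∧ ∀ a A, g a ∈ jump A ↔ ∃ ℓ, (ψ (a, bits A ℓ)).Dom := by
  obtain ⟨cf, hcf⟩ := Code.exists_code.1 hψ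
  refine ⟨fun a => encode (Code.curry cf (encode a)),
    Primrec.encode.comp (Code.primrec₂_curry.comp (Primrec.const cf) Primrec.encode),
    fun a A => ?_⟩
  unfold jump
  simp only [Set.mem_ofPred_eq, Denumerable.ofNat_encode, Code.eval_curry, hcf]
  refine exists_congr fun ℓ => ?_
  have : Nat.pair (encode a) (encode (bits A ℓ)) = encode (a, bits A ℓ) := by simp
  rw [this, encodek]
  simp

theorem jump_ex {p : (α × List Bool) × ℕ → Bool} (hp : Computable p) :
    ∃ g : α → ℕ, Primrec g ∧ ∀ a A, g a ∈ jump A ↔ ∃ ℓ k, p ((a, bits A ℓ), k) = true := by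
  have hψ : Partrec fun x : α × List Bool => Nat.rfind fun k => Part.some (p (x, k)) :=
    Partrec.rfind (p := fun x k => Part.some (p (x, k))) (Computable.partrec hp)
  obtain ⟨g, hg, h⟩ := jump_code hψ
  refine ⟨g, hg, fun a A => ?_⟩
  rw [h]
  refine exists_congr fun ℓ => ?_
  rw [Nat.rfind_dom]
  constructor
  · rintro ⟨k, hk, -⟩
    exact ⟨k, by simpa using hk⟩
  · rintro ⟨k, hk⟩
    exact ⟨k, by simpa using hk, fun {_} _ => trivial⟩

theorem jump_dec {p : α × List Bool → Bool} (hp : Computable p) :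
    ∃ g : α → ℕ, Primrec g ∧ ∀ a A, g a ∈ jump A ↔ ∃ ℓ, p (a, bits A ℓ) = true := by
  obtain ⟨g, hg, h⟩ := jump_ex (p := fun q : (α × List Bool) × ℕ => p q.1)
    (hp.comp Computable.fst)
  refine ⟨g, hg, fun a A => ?_⟩
  rw [h]
  exact ⟨fun ⟨ℓ, _, h⟩ => ⟨ℓ, h⟩, fun ⟨ℓ, h⟩ => ⟨ℓ, 0, h⟩⟩

theorem exists_bits {A : Set ℕ} {m : ℕ} {b : Bool} :
    (∃ ℓ, (bits A ℓ)[m]? = some b) ↔ (b = true ↔ m ∈ A) := by
  simp only [bits_get]
  exact ⟨fun ⟨_, _, h⟩ => h, fun h => ⟨m + 1, by omega, h⟩⟩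

theorem getElem_prim : Primrec fun q : ℕ × List Bool => q.2[q.1]? :=
  Primrec.list_getElem?.comp .snd .fst

theorem jump_bit (b : Bool) :
    ∃ g : ℕ → ℕ, Primrec g ∧ ∀ m A, g m ∈ jump A ↔ (b = true ↔ m ∈ A) := by
  have hp : Primrec fun q : ℕ × List Bool => decide (q.2[q.1]? = some b) :=
    (Primrec.eq.comp getElem_prim (Primrec.const (some b))).decide
  obtain ⟨g, hg, h⟩ := jump_dec hp.to_comp
  refine ⟨g, hg, fun m A => ?_⟩
  rw [h]
  simp only [decide_eq_true_eq]
  exact exists_bits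

theorem jump_lift : ∃ l : ℕ → ℕ, Primrec l ∧ ∀ m A, l m ∈ jump A ↔ m ∈ A := by
  obtain ⟨g, hg, h⟩ := jump_bit true
  exact ⟨g, hg, fun m A => by simpa using h m A⟩

theorem jump_neg : ∃ l : ℕ → ℕ, Primrec l ∧ ∀ m A, l m ∈ jump A ↔ m ∉ A := by
  obtain ⟨g, hg, h⟩ := jump_bit false
  exact ⟨g, hg, fun m A => by simpa using h m A⟩

theorem jump_and : ∃ l : ℕ × ℕ → ℕ, Primrec l ∧ ∀ m A, l m ∈ jump A ↔ m.1 ∈ A ∧ m.2 ∈ A := by
  have hp : Primrec fun q : (ℕ × ℕ) × List Bool =>
      decide (q.2[q.1.1]? = some true) && decide (q.2[q.1.2]? = some true) :=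
    Primrec.and.comp
      (Primrec.eq.comp (getElem_prim.comp (Primrec.pair (Primrec.fst.comp .fst) .snd))
        (Primrec.const (some true))).decide
      (Primrec.eq.comp (getElem_prim.comp (Primrec.pair (Primrec.snd.comp .fst) .snd))
        (Primrec.const (some true))).decide
  obtain ⟨g, hg, h⟩ := jump_dec hp.to_comp
  refine ⟨g, hg, fun m A => ?_⟩
  rw [h]
  simp only [Bool.and_eq_true, decide_eq_true_eq, bits_get]
  constructor
  · rintro ⟨ℓ, ⟨-, h1⟩, -, h2⟩
    exact ⟨by simpa using h1, by simpa using h2⟩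
  · rintro ⟨h1, h2⟩
    exact ⟨m.1 + m.2 + 1, ⟨by omega, by simpa using h1⟩, by omega, by simpa using h2⟩

theorem jump_const (p : Prop) : ∃ e : ℕ, ∀ A, e ∈ jump A ↔ p := by
  classical
  obtain ⟨g, -, h⟩ := jump_dec (p := fun _ : Unit × List Bool => decide p) (Computable.const _)
  refine ⟨g (), fun A => ?_⟩
  rw [h]
  simp

theorem liftN : ∃ l : ℕ × ℕ → ℕ, Computable l ∧
    ∀ j m n, l (j, m) ∈ jumpN (n + j) ↔ m ∈ jumpN n := by
  obtain ⟨l, hl, h⟩ := jump_lift
  have hl2 : Primrec₂ fun (_ : ℕ × ℕ) (x : ℕ) => l x := hl.comp Primrec.snd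
  refine ⟨fun q => l^[q.1] q.2, (Primrec.nat_iterate .fst .snd hl2).to_comp,
    fun j m n => ?_⟩
  induction j with
  | zero => rfl
  | succ j ih =>
    simp only [Function.iterate_succ_apply']
    rw [← add_assoc]
    change _ ∈ jump _ ↔ _
    rw [h]
    exact ih

/-- uniformly arithmetical predicates: the level depends only on the first argument -/
def UAR (P : α → β → Prop) : Prop :=
  ∃ (n : α → ℕ) (g : α × β → ℕ), Computable n ∧ Computable g ∧
    ∀ a b, P a b ↔ g (a, b) ∈ jumpN (n a)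

theorem UAR.congr {P Q : α → β → Prop} (hP : UAR P) (h : ∀ a b, P a b ↔ Q a b) : UAR Q := by
  obtain ⟨n, g, hn, hg, h1⟩ := hP
  exact ⟨n, g, hn, hg, fun a b => (h a b).symm.trans (h1 a b)⟩

theorem UAR.subst {P : α → β → Prop} (hP : UAR P) {k : γ → α} {h : γ × δ → β}
    (hk : Computable k) (hh : Computable h) : UAR fun c d => P (k c) (h (c, d)) := by
  obtain ⟨n, g, hn, hg, h1⟩ := hP
  exact ⟨fun c => n (k c), fun q => g (k q.1, h q), hn.comp hk,
    hg.comp ((hk.comp Computable.fst).pair hh), fun c d => h1 _ _⟩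

theorem UAR.comp {f : α × β → Bool} (hf : Computable f) : UAR fun a b => f (a, b) = true := by
  obtain ⟨e1, h1⟩ := jump_const True
  obtain ⟨e0, h0⟩ := jump_const False
  refine ⟨fun _ => 1, fun q => cond (f q) e1 e0, Computable.const 1,
    Computable.cond hf (Computable.const e1) (Computable.const e0), fun a b => ?_⟩
  change f (a, b) = true ↔ cond (f (a, b)) e1 e0 ∈ jump (UP.jumpN 0)
  cases h : f (a, b)
  · simp only [cond_false, h0]
    simp
  · simp only [cond_true, h1]

theorem UAR.jumpN : UAR fun (n : ℕ) (m : ℕ) => m ∈ UP.jumpN n :=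
  ⟨fun n => n, fun q => q.2, Computable.id, Computable.snd, fun _ _ => Iff.rfl⟩

theorem UAR.not {P : α → β → Prop} (hP : UAR P) : UAR fun a b => ¬ P a b := by
  obtain ⟨n, g, hn, hg, h1⟩ := hP
  obtain ⟨l, hl, h2⟩ := jump_neg
  refine ⟨fun a => n a + 1, fun q => l (g q), Computable.succ.comp hn, hl.to_comp.comp hg,
    fun a b => ?_⟩
  change ¬ P a b ↔ l (g (a, b)) ∈ jump (UP.jumpN (n a))
  rw [h2, h1]

theorem UAR.and {P Q : α → β → Prop} (hP : UAR P) (hQ : UAR Q) :
    UAR fun a b => P a b ∧ Q a b := by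
  obtain ⟨n, g, hn, hg, h1⟩ := hP
  obtain ⟨n', g', hn', hg', h1'⟩ := hQ
  obtain ⟨l, hl, h2⟩ := jump_and
  obtain ⟨L, hL, h3⟩ := liftN
  have hm : Computable fun a => max (n a) (n' a) := Primrec.nat_max.to_comp.comp hn hn'
  have hs : ∀ {f f' : α → ℕ}, Computable f → Computable f' → Computable fun a => f a - f' a :=
    fun hf hf' => Primrec.nat_sub.to_comp.comp hf hf'
  refine ⟨fun a => max (n a) (n' a) + 1, fun q => l (L (max (n q.1) (n' q.1) - n q.1, g q),
    L (max (n q.1) (n' q.1) - n' q.1, g' q)), Computable.succ.comp hm, ?_, fun a b => ?_⟩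
  · exact hl.to_comp.comp ((hL.comp (((hs hm hn).comp Computable.fst).pair hg)).pair
      (hL.comp (((hs hm hn').comp Computable.fst).pair hg')))
  · change (P a b ∧ Q a b) ↔ l (L (max (n a) (n' a) - n a, g (a, b)),
      L (max (n a) (n' a) - n' a, g' (a, b))) ∈ jump (UP.jumpN (max (n a) (n' a)))
    rw [h2, h1, h1']
    have e1 : n a + (max (n a) (n' a) - n a) = max (n a) (n' a) := by omega
    have e2 : n' a + (max (n a) (n' a) - n' a) = max (n a) (n' a) := by omega
    have h4 := h3 (max (n a) (n' a) - n a) (g (a, b)) (n a)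
    have h5 := h3 (max (n a) (n' a) - n' a) (g' (a, b)) (n' a)
    rw [e1] at h4
    rw [e2] at h5
    simp only [h4, h5]

theorem UAR.ex {P : α → β × γ → Prop} (hP : UAR P) : UAR fun a b => ∃ c, P a (b, c) := by
  obtain ⟨n, g, hn, hg, h1⟩ := hP
  have h3 : Computable fun q : ℕ × List Bool => decide (q.2[q.1]? = some true) :=
    ((Primrec.eq.comp getElem_prim (Primrec.const (some true))).decide).to_comp
  have h2 : Computable fun q : (((α × β) × List Bool) × ℕ) × γ =>
      g (q.1.1.1.1, (q.1.1.1.2, q.2)) :=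
    hg.comp ((Computable.fst.comp (Computable.fst.comp (Computable.fst.comp
      Computable.fst))).pair ((Computable.snd.comp (Computable.fst.comp (Computable.fst.comp
        Computable.fst))).pair Computable.snd))
  have h5 : Computable fun q : (((α × β) × List Bool) × ℕ) × γ =>
      (g (q.1.1.1.1, (q.1.1.1.2, q.2)), q.1.1.2) :=
    h2.pair (Computable.snd.comp (Computable.fst.comp Computable.fst))
  have h4 : Computable fun q : (((α × β) × List Bool) × ℕ) × γ =>
      decide (q.1.1.2[g (q.1.1.1.1, (q.1.1.1.2, q.2))]? = some true) :=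
    Computable.comp (f := fun q : ℕ × List Bool => decide (q.2[q.1]? = some true))
      (g := fun q : (((α × β) × List Bool) × ℕ) × γ =>
      (g (q.1.1.1.1, (q.1.1.1.2, q.2)), q.1.1.2)) h3 h5
  have hd : Computable fun q : ((α × β) × List Bool) × ℕ =>
      ((decode q.2 : Option γ).map fun c => decide (q.1.2[g (q.1.1.1, (q.1.1.2, c))]? =
        some true)).getD false := by
    refine Computable.option_getD (Computable.option_map
      (Computable.decode.comp Computable.snd) ?_) (Computable.const false)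
    exact h4
  obtain ⟨G, hG, h2⟩ := jump_ex hd
  refine ⟨fun a => n a + 1, G, Computable.succ.comp hn, hG.to_comp, fun a b => ?_⟩
  change (∃ c, P a (b, c)) ↔ G (a, b) ∈ jump (UP.jumpN (n a))
  rw [h2]
  constructor
  · rintro ⟨c, hc⟩
    rw [h1] at hc
    obtain ⟨ℓ, hℓ⟩ := (exists_bits (b := true)).2 (by simpa using hc)
    refine ⟨ℓ, encode c, ?_⟩
    simp [hℓ]
  · rintro ⟨ℓ, k, hk⟩
    cases hd : (decode k : Option γ) with
    | none => simp [hd] at hk
    | some c =>
      refine ⟨c, (h1 _ _).2 ?_⟩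
      simp only [hd, Option.map_some, Option.getD_some, decide_eq_true_eq] at hk
      simpa using (exists_bits (b := true)).1 ⟨ℓ, hk⟩

theorem UAR.or {P Q : α → β → Prop} (hP : UAR P) (hQ : UAR Q) :
    UAR fun a b => P a b ∨ Q a b :=
  (hP.not.and hQ.not).not.congr fun a b => by tauto

theorem UAR.imp {P Q : α → β → Prop} (hP : UAR P) (hQ : UAR Q) :
    UAR fun a b => P a b → Q a b :=
  (hP.and hQ.not).not.congr fun a b => by tauto

theorem UAR.all {P : α → β × γ → Prop} (hP : UAR P) : UAR fun a b => ∀ c, P a (b, c) :=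
  (UAR.ex hP.not).not.congr fun a b => by simp

theorem UAR.of_AR {p : β → Prop} (hp : AR p) : UAR fun (_ : α) b => p b := by
  have key : ∀ q : ℕ → Prop, Arith q → UAR fun (_ : Unit) n => q n := by
    intro q hq
    induction hq with
    | @comp q h =>
      obtain ⟨f, hf, rfl⟩ := ComputablePred.computable_iff.1 h
      exact UAR.comp (f := fun x : Unit × ℕ => f x.2) (hf.comp Computable.snd)
    | compl _ ih => exact ih.not
    | inter _ _ ih1 ih2 => exact ih1.and ih2
    | @proj q _ ih =>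
      have h1 : UAR fun (_ : Unit) (x : ℕ × ℕ) => q (Nat.pair x.1 x.2) :=
        ih.subst (k := fun u : Unit => u) (h := fun x : Unit × ℕ × ℕ => Nat.pair x.2.1 x.2.2)
          Computable.id ((Primrec₂.natPair.comp (Primrec.fst.comp .snd)
            (Primrec.snd.comp .snd)).to_comp)
      exact h1.ex
  have h1 := (key _ hp).subst (k := fun _ : α => ()) (h := fun x : α × β => encode x.2)
    (Computable.const ()) (Computable.encode.comp Computable.snd)
  exact h1.congr fun a b => by simp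

end

/-- the set with index `a` -/
def Ev (a : ℕ × ℕ) (x : ℕ) : Prop :=
  ∃ m, m ∈ (Denumerable.ofNat Code a.2).eval x ∧ m ∈ jumpN a.1

theorem UAR_Ev : UAR Ev := by
  have h1 : UAR fun (a : ℕ × ℕ) (q : (ℕ × ℕ) × ℕ) =>
      decide (Code.evaln q.2 (Denumerable.ofNat Code a.2) q.1.1 = some q.1.2) = true := by
    refine UAR.comp (f := fun x : (ℕ × ℕ) × ((ℕ × ℕ) × ℕ) =>
      decide (Code.evaln x.2.2 (Denumerable.ofNat Code x.1.2) x.2.1.1 = some x.2.1.2)) ?_
    refine ((Primrec.eq.comp (Code.primrec_evaln.comp (Primrec.pair (Primrec.pair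
      (Primrec.snd.comp .snd) ((Primrec.ofNat Code).comp (Primrec.snd.comp .fst)))
      (Primrec.fst.comp (Primrec.fst.comp .snd)))) (Primrec.option_some.comp
        (Primrec.snd.comp (Primrec.fst.comp .snd)))).decide).to_comp
  have h2 : UAR fun (a : ℕ × ℕ) (q : ℕ × ℕ) => q.2 ∈ jumpN a.1 :=
    UAR.jumpN.subst (k := fun a : ℕ × ℕ => a.1) (h := fun x : (ℕ × ℕ) × (ℕ × ℕ) => x.2.2)
      Computable.fst (Computable.snd.comp Computable.snd)
  refine (UAR.ex (h1.ex.and h2)).congr fun a x => ?_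
  unfold Ev
  simp only [decide_eq_true_eq]
  constructor
  · rintro ⟨m, ⟨s, hs⟩, hm⟩
    exact ⟨m, Code.evaln_complete.2 ⟨s, hs⟩, hm⟩
  · rintro ⟨m, hs, hm⟩
    obtain ⟨s, hs⟩ := Code.evaln_complete.1 hs
    exact ⟨m, ⟨s, hs⟩, hm⟩

theorem exists_index {p : ℕ → Prop} (hp : AR p) : ∃ a, ∀ x, p x ↔ Ev a x := by
  obtain ⟨n, g, -, hg, h⟩ := UAR.of_AR (α := Unit) hp
  have hg' : Computable fun x : ℕ => g ((), x) :=
    hg.comp ((Computable.const ()).pair Computable.id)
  obtain ⟨e, he⟩ := Code.exists_code.1 (Partrec.nat_iff.1 hg'.partrec)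
  refine ⟨(n (), encode e), fun x => ?_⟩
  have hx : p x ↔ g ((), x) ∈ jumpN (n ()) := h () x
  rw [hx]
  unfold Ev
  simp only [Denumerable.ofNat_encode, he]
  simp

end Pool.Agent.Work.MP_69fea5_lc.UP
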