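import Pool.Agent.Work.MP_69fea5_lc.AC.Forcing

/-!
One step of the construction: every arithmetical reservoir has an arithmetical sub-reservoir all
of whose elements are covered by one finite pool. Paths of covers are solutions.
-/

set_option autoImplicit false

namespace Pool.Agent.Work.MP_69fea5_lc.UP

open Encodable
open Pool.Agent.Work.MP_69fea5_lc.AC

variable {κ : Type*}

/-- `E` covers `x` over the shifts `S`, with elements above `N` and sums in `pool` -/
def CovE (c : ℕ → κ) (S : List ℕ) (N : ℕ) (pool E : List ℕ) (x : ℕ) : Prop :=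
  (E ≠ [] ∧ Srt E ∧ ∀ e ∈ E, N < e) ∧
    ∀ r ∈ FSl E, r ∈ pool ∧ ∀ u ∈ S, c (u + r) = c (u + x) ∧ c (u + (r + x)) = c (u + x)

theorem CovE.mono {c : ℕ → κ} {S : List ℕ} {N : ℕ} {pool pool' E : List ℕ} {x : ℕ}
    (h : CovE c S N pool E x) (hp : ∀ r ∈ pool, r ∈ pool') : CovE c S N pool' E x :=
  ⟨h.1, fun r hr => ⟨hp r (h.2 r hr).1, (h.2 r hr).2⟩⟩

theorem AR_CovE [Finite κ] {c : ℕ → κ} (hc : ∀ i, AR fun x => c x = i) :
    AR fun q : (List ℕ × ℕ × List ℕ) × List ℕ × ℕ =>
      CovE c q.1.1 q.1.2.1 q.1.2.2 q.2.1 q.2.2 := by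
  refine AR.and (AR.and ?_ (AR.and ?_ ?_)) ?_
  · exact (AR.eq (Primrec.fst.comp .snd) (.const [])).not
  · exact AR_Srt (Primrec.fst.comp .snd)
  · exact AR.allIn (g := fun q : (List ℕ × ℕ × List ℕ) × List ℕ × ℕ => q.2.1)
      (Primrec.fst.comp .snd) (AR.lt (Primrec.fst.comp (Primrec.snd.comp (Primrec.fst.comp .fst)))
        .snd)
  · refine AR.allIn (g := fun q : (List ℕ × ℕ × List ℕ) × List ℕ × ℕ => FSl q.2.1)
      (FSl_prim.comp (Primrec.fst.comp .snd)) (AR.and ?_ ?_)
    · exact AR.mem .snd (Primrec.snd.comp (Primrec.snd.comp (Primrec.fst.comp .fst)))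
    · refine AR.allIn (g := fun q : ((List ℕ × ℕ × List ℕ) × List ℕ × ℕ) × ℕ => q.1.1.1)
        (Primrec.fst.comp (Primrec.fst.comp .fst)) ?_
      have hu : Primrec fun q : (((List ℕ × ℕ × List ℕ) × List ℕ × ℕ) × ℕ) × ℕ => q.2 := .snd
      have hr : Primrec fun q : (((List ℕ × ℕ × List ℕ) × List ℕ × ℕ) × ℕ) × ℕ => q.1.2 :=
        Primrec.snd.comp .fst
      have hx : Primrec fun q : (((List ℕ × ℕ × List ℕ) × List ℕ × ℕ) × ℕ) × ℕ => q.1.1.2.2 :=
        Primrec.snd.comp (Primrec.snd.comp (Primrec.fst.comp .fst))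
      exact AR.and (AR_c hc (Primrec.nat_add.comp hu hr) (Primrec.nat_add.comp hu hx))
        (AR_c hc (Primrec.nat_add.comp hu (Primrec.nat_add.comp hr hx))
          (Primrec.nat_add.comp hu hx))

theorem exists_pool [Finite κ] {c : ℕ → κ} (hc : ∀ i, AR fun x => c x = i) {A : ℕ → Prop}
    (hA : AR A) (hV : V A) (S : List ℕ) (N : ℕ) :
    ∃ (A' : ℕ → Prop) (pool : List ℕ), AR A' ∧ V A' ∧ (∀ x, A' x → A x) ∧
      ∀ x, A' x → ∃ E, CovE c S N pool E x := by
  classical
  have := Fintype.ofFinite κ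
  have hΦ : AR fun E : List ℕ => E ≠ [] ∧ Srt E ∧ ∀ e ∈ E, N < e := by
    refine AR.and (AR.eq .id (.const [])).not (AR.and (AR_Srt .id) ?_)
    exact AR.allIn (g := fun E : List ℕ => E) .id (AR.lt (.const N) .snd)
  have key : ∀ Θ : Finset ({u // u ∈ S} → κ), ∃ (A' : ℕ → Prop) (pool : List ℕ),
      AR A' ∧ V A' ∧ (∀ x, A' x → A x) ∧ ∀ x, A' x →
        (fun u : {u // u ∈ S} => c (u.1 + x)) ∈ Θ → ∃ E, CovE c S N pool E x := by
    intro Θ
    induction Θ using Finset.induction_on with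
    | empty => exact ⟨A, [], hA, hV, fun _ h => h, fun x _ h => absurd h (by simp)⟩
    | insert θ Θ _ ih =>
      obtain ⟨A₁, pool₁, h1, h2, h3, h4⟩ := ih
      let δ : ℕ → κ := fun u => if h : u ∈ S then θ ⟨u, h⟩ else c 0
      have hδ : ∀ x, (fun u : {u // u ∈ S} => c (u.1 + x)) = θ → G c S δ x := by
        intro x hx u hu
        have : δ u = θ ⟨u, hu⟩ := dif_pos hu
        rw [this, ← hx]
      by_cases hcov : Covers c S δ A₁ fun E : List ℕ => E ≠ [] ∧ Srt E ∧ ∀ e ∈ E, N < e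
      · obtain ⟨𝓑, hin, hV', hcov⟩ := hcov
        have hsub : ∀ x, VS c S A₁ 𝓑 x → A₁ x := fun x hx => by
          have := hx.1 0 (zero_mem_FS0 _)
          rwa [zero_add] at this
        refine ⟨VS c S A₁ 𝓑, pool₁ ++ FSl 𝓑.flatten, AR_VS1 hc h1 𝓑, hV',
          fun x hx => h3 x (hsub x hx), fun x hx hmem => ?_⟩
        rcases Finset.mem_insert.1 hmem with h5 | h5
        · obtain ⟨E, hE, h6⟩ := hcov x hx (hδ x h5)
          refine ⟨E, hE, fun r hr => ⟨List.mem_append_right _ (h6 r hr).1, fun u hu => ?_⟩⟩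
          have e0 : c (u + x) = δ u := hδ x h5 u hu
          exact ⟨by rw [e0]; exact (h6 r hr).2.1 u hu, by rw [e0]; exact (h6 r hr).2.2 u hu⟩
        · obtain ⟨E, hE⟩ := h4 x (hsub x hx) h5
          exact ⟨E, hE.mono fun r hr => List.mem_append_left _ hr⟩
      · obtain ⟨Z, z1, z2, z3, z4⟩ := dichotomy hc h1 h2 hΦ hcov
        refine ⟨fun x => Z x ∧ N < x, pool₁, z1.and (AR.lt (.const N) .id), V_gt z2 N,
          fun x hx => h3 x (z3 x hx.1), fun x hx hmem => ?_⟩
        rcases Finset.mem_insert.1 hmem with h5 | h5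
        · exfalso
          have hx1 : ([x] : List ℕ) ≠ [] ∧ Srt [x] ∧ ∀ e ∈ [x], N < e := by
            refine ⟨by simp, ⟨by simp, fun a ha => ?_⟩, fun e he => ?_⟩
            · rw [List.mem_singleton.1 ha]
              have := hx.2
              omega
            · rw [List.mem_singleton.1 he]
              exact hx.2
          obtain ⟨r, hr, h6⟩ := z4 [x] hx1 (fun r hr => by
            rw [mem_FSl_singleton.1 hr]
            exact hx.1)
          rw [mem_FSl_singleton.1 hr] at h6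
          exact h6 (hδ x h5)
        · exact h4 x (z3 x hx.1) h5
  obtain ⟨A', pool, h1, h2, h3, h4⟩ := key Finset.univ
  exact ⟨A', pool, h1, h2, h3, fun x hx => h4 x hx (Finset.mem_univ _)⟩

/-- the next set of shifts -/
def nextS (S pool : List ℕ) : List ℕ := S.flatMap fun u => (0 :: pool).map fun r => u + r

theorem mem_nextS {S pool : List ℕ} {u r : ℕ} (hu : u ∈ S) (hr : r = 0 ∨ r ∈ pool) :
    u + r ∈ nextS S pool :=
  List.mem_flatMap.2 ⟨u, hu, List.mem_map.2 ⟨r, List.mem_cons.2 hr, rfl⟩⟩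

/-- concatenation of the covers -/
def suf (E : ℕ → List ℕ) : ℕ → ℕ → List ℕ
  | _, 0 => []
  | j, k + 1 => E j ++ suf E (j + 1) k

/-- the sums of the covers have the right colours -/
theorem suf_colour {c : ℕ → κ} {S pool E : ℕ → List ℕ} {N : ℕ → ℕ}
    (hS : ∀ n, S (n + 1) = nextS (S n) (pool n)) {x M : ℕ}
    (hE : ∀ n < M, CovE c (S n) (N n) (pool n) (E n) x) :
    ∀ k j, j + k = M → ∀ u ∈ S j,
      (∀ t ∈ FS0 (suf E j k), c (u + (t + x)) = c (u + x)) ∧
      ∀ t ∈ FSl (suf E j k), c (u + t) = c (u + x) := by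
  intro k
  induction k with
  | zero =>
    intro j _ u _
    refine ⟨fun t ht => ?_, fun t ht => ?_⟩
    · have : t = 0 := by simpa [FS0, FSl, suf] using ht
      rw [this, zero_add]
    · simp [FSl, suf] at ht
  | succ k ih =>
    intro j hj u hu
    have hc := (hE j (by omega)).2
    have hnext : ∀ a ∈ FS0 (E j), u + a ∈ S (j + 1) ∧ c ((u + a) + x) = c (u + x) := by
      intro a ha
      rw [hS]
      rcases mem_FS0_iff.1 ha with rfl | h
      · exact ⟨mem_nextS hu (Or.inl rfl), by rw [add_zero]⟩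
      · refine ⟨mem_nextS hu (Or.inr (hc a h).1), ?_⟩
        rw [add_assoc]
        exact ((hc a h).2 u hu).2
    refine ⟨fun t ht => ?_, fun t ht => ?_⟩
    · obtain ⟨a, ha, b, hb, rfl⟩ := mem_FS0_append.1 ht
      have h1 := (ih (j + 1) (by omega) (u + a) (hnext a ha).1).1 b hb
      rw [add_assoc a b x, ← add_assoc u a (b + x), h1]
      exact (hnext a ha).2
    · rcases mem_FSl_append.1 ht with h | ⟨a, ha, b, hb, rfl⟩
      · exact ((hc t h).2 u hu).1
      · have h1 := (ih (j + 1) (by omega) (u + a) (hnext a ha).1).2 b hb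
        rw [← add_assoc, h1]
        exact (hnext a ha).2

open Classical in
/-- the part of `X` in the interval `(N, N']` -/
noncomputable def part (X : Set ℕ) (N N' : ℕ) : List ℕ :=
  (List.range (N' + 1)).filter fun i => decide (N < i ∧ i ∈ X)

theorem mem_part {X : Set ℕ} {N N' i : ℕ} : i ∈ part X N N' ↔ N < i ∧ i ≤ N' ∧ i ∈ X := by
  simp only [part, List.mem_filter, List.mem_range, decide_eq_true_eq]
  constructor
  · rintro ⟨h1, h2, h3⟩
    exact ⟨h2, by omega, h3⟩
  · rintro ⟨h1, h2, h3⟩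
    exact ⟨by omega, h1, h3⟩

theorem part_pairwise (X : Set ℕ) (N N' : ℕ) : (part X N N').Pairwise fun a b => a < b :=
  List.Pairwise.filter _ List.pairwise_lt_range

theorem suf_props {X : Set ℕ} {N : ℕ → ℕ} (hN : ∀ n, N n ≤ N (n + 1)) :
    ∀ k j, (∀ i, i ∈ suf (fun n => part X (N n) (N (n + 1))) j k ↔
      N j < i ∧ i ≤ N (j + k) ∧ i ∈ X) ∧
      (suf (fun n => part X (N n) (N (n + 1))) j k).Pairwise fun a b => a < b := by
  have hmono : ∀ a b, a ≤ b → N a ≤ N b := fun a b h => by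
    induction h with
    | refl => exact le_rfl
    | step _ ih => exact ih.trans (hN _)
  intro k
  induction k with
  | zero =>
    intro j
    refine ⟨fun i => ?_, .nil⟩
    simp only [suf, List.not_mem_nil, add_zero, false_iff]
    omega
  | succ k ih =>
    intro j
    obtain ⟨h1, h2⟩ := ih (j + 1)
    have e : j + 1 + k = j + (k + 1) := by omega
    rw [e] at h1
    have m1 := hmono (j + 1) (j + (k + 1)) (by omega)
    refine ⟨fun i => ?_, ?_⟩
    · simp only [suf, List.mem_append, mem_part, h1]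
      constructor
      · rintro (⟨a, b, d⟩ | ⟨a, b, d⟩)
        · exact ⟨a, by omega, d⟩
        · have := hN j
          exact ⟨by omega, b, d⟩
      · rintro ⟨a, b, d⟩
        by_cases h : i ≤ N (j + 1)
        · exact Or.inl ⟨a, h, d⟩
        · exact Or.inr ⟨by omega, b, d⟩
    · simp only [suf]
      rw [List.pairwise_append]
      refine ⟨part_pairwise _ _ _, h2, fun a ha b hb => ?_⟩
      have h3 := mem_part.1 ha
      have h4 := (h1 b).1 hb
      omega

/-- a set all of whose stages are covers is a solution -/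
theorem solution_of_covers {c : ℕ → κ} {S pool : ℕ → List ℕ} {N : ℕ → ℕ} {X : Set ℕ}
    (hS : ∀ n, S (n + 1) = nextS (S n) (pool n)) (h0 : 0 ∈ S 0) (hN0 : N 0 = 0)
    (hN : ∀ n, N n ≤ N (n + 1)) (hX0 : 0 ∉ X)
    (hX : ∀ M, ∃ x, ∀ n < M, CovE c (S n) (N n) (pool n) (part X (N n) (N (n + 1))) x) :
    X.Infinite ∧ (∀ x ∈ X, 0 < x) ∧
      ∃ i, ∀ F : Finset ℕ, F.Nonempty → (↑F : Set ℕ) ⊆ X → c (∑ x ∈ F, x) = i := by
  have hmono : ∀ a b, a ≤ b → N a ≤ N b := fun a b h => by
    induction h with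
    | refl => exact le_rfl
    | step _ ih => exact ih.trans (hN _)
  have hne : ∀ n, ∃ e, N n < e ∧ e ≤ N (n + 1) ∧ e ∈ X := by
    intro n
    obtain ⟨x, hx⟩ := hX (n + 1)
    have h1 := (hx n (by omega)).1.1
    obtain ⟨e, he⟩ := List.exists_mem_of_ne_nil _ h1
    exact ⟨e, mem_part.1 he⟩
  have hge : ∀ n, n ≤ N n := by
    intro n
    induction n with
    | zero => exact Nat.zero_le _
    | succ n ih =>
      obtain ⟨e, h1, h2, -⟩ := hne n
      omega
  refine ⟨?_, ?_, ?_⟩
  · refine Set.infinite_of_not_bddAbove fun ⟨b, hb⟩ => ?_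
    obtain ⟨e, h1, h2, h3⟩ := hne b
    have := hb h3
    have := hge b
    omega
  · intro x hx
    rcases Nat.eq_zero_or_pos x with rfl | h
    · exact absurd hx hX0
    · exact h
  · obtain ⟨e₀, h1, h2, h3⟩ := hne 0
    refine ⟨c e₀, fun F hF hFX => ?_⟩
    obtain ⟨b, hb⟩ : ∃ b, ∀ i ∈ F, i ≤ b := ⟨F.sup id, fun i hi => Finset.le_sup (f := id) hi⟩
    obtain ⟨x, hx⟩ := hX (b + 1)
    have hcol := suf_colour hS hx (b + 1) 0 (by omega) 0 h0
    have hsuf := suf_props (X := X) hN (b + 1) 0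
    have hb1 : b ≤ N (0 + (b + 1)) := by
      have := hge (0 + (b + 1))
      omega
    have e1 : c e₀ = c (0 + x) := by
      have := hcol.2 e₀ (mem_FSl.2 ⟨[e₀], ?_, by simp, by simp⟩)
      · rwa [zero_add] at this
      · rw [List.singleton_sublist]
        refine (hsuf.1 e₀).2 ⟨h1, ?_, h3⟩
        exact h2.trans (hmono _ _ (by omega))
    rw [e1]
    have e2 := hcol.2 (∑ x ∈ F, x) (mem_FSl.2
      ⟨(suf (fun n => part X (N n) (N (n + 1))) 0 (b + 1)).filter (fun x => decide (x ∈ F)),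
      List.filter_sublist, ?_, ?_⟩)
    · rwa [zero_add] at e2
    · obtain ⟨a, ha⟩ := hF
      refine List.ne_nil_of_mem (a := a) ?_
      rw [List.mem_filter]
      refine ⟨(hsuf.1 a).2 ⟨?_, (hb a ha).trans hb1, hFX ha⟩, by simpa using ha⟩
      rw [hN0]
      rcases Nat.eq_zero_or_pos a with rfl | h
      · exact absurd (hFX ha) hX0
      · exact h
    · have hnd : (suf (fun n => part X (N n) (N (n + 1))) 0 (b + 1)).Nodup :=
        hsuf.2.imp fun h => Nat.ne_of_lt h
      have h4 : ((suf (fun n => part X (N n) (N (n + 1))) 0 (b + 1)).filter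
          (fun x => decide (x ∈ F))).toFinset = F := by
        ext a
        simp only [List.mem_toFinset, List.mem_filter, decide_eq_true_eq]
        refine ⟨fun h => h.2, fun ha => ⟨(hsuf.1 a).2 ⟨?_, (hb a ha).trans hb1, hFX ha⟩, ha⟩⟩
        rw [hN0]
        rcases Nat.eq_zero_or_pos a with rfl | h
        · exact absurd (hFX ha) hX0
        · exact h
      have h5 := List.sum_toFinset (fun x => x) (hnd.filter (fun x => decide (x ∈ F)))
      rw [h4] at h5
      rw [h5, List.map_id']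

end Pool.Agent.Work.MP_69fea5_lc.UP
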