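import Pool.Agent.Work.MP_69fea5_lc.UP.Jump
import Pool.Agent.Work.MP_69fea5_lc.UP.Step
import Pool.Agent.Work.MP_69fea5_lc.AC.Main

/-!
The sequence of reservoirs and pools, computed from the omega jump, and the tree of solutions.
-/

set_option autoImplicit false

namespace Pool.Agent.Work.MP_69fea5_lc.UP

open Encodable
open Pool.Agent.Work.MP_69fea5_lc.AC

open Classical in
/-- characteristic function -/
noncomputable def chi (S : Set ℕ) : ℕ →. ℕ := fun n => Part.some (if n ∈ S then 1 else 0)

/-- total functions recursive in `O` -/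
def TR (O : Set (ℕ →. ℕ)) (g : ℕ → ℕ) : Prop := Nat.RecursiveIn O fun n => Part.some (g n)

theorem TR.of_comp {O : Set (ℕ →. ℕ)} {g : ℕ → ℕ} (hg : Computable g) : TR O g :=
  Nat.Partrec.recursiveIn (Partrec.nat_iff.1 hg.partrec)

theorem TR.comp {O : Set (ℕ →. ℕ)} {g h : ℕ → ℕ} (hg : TR O g) (hh : TR O h) :
    TR O fun n => g (h n) := by
  refine (Nat.RecursiveIn.comp hg hh).of_eq fun n => ?_
  exact Part.bind_some _ _

theorem TR.pair {O : Set (ℕ →. ℕ)} {g h : ℕ → ℕ} (hg : TR O g) (hh : TR O h) :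
    TR O fun n => Nat.pair (g n) (h n) := by
  refine (Nat.RecursiveIn.pair hg hh).of_eq fun n => ?_
  simp [Seq.seq]

theorem TR.congr {O : Set (ℕ →. ℕ)} {g h : ℕ → ℕ} (hg : TR O g) (e : ∀ n, g n = h n) :
    TR O h := by
  have : g = h := funext e
  exact this ▸ hg

open Classical in
theorem UAR.dec {α β : Type*} [Primcodable α] [Primcodable β] {P : α → β → Prop} (hP : UAR P) :
    TR {chi omegaJump} fun k =>
      if ∃ x : α × β, (decode k : Option (α × β)) = some x ∧ P x.1 x.2 then 1 else 0 := by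
  obtain ⟨n, g, hn, hg, h⟩ := hP
  have h1 : Computable fun k : ℕ => ((decode k : Option (α × β)).map fun x => n x.1).getD 0 :=
    Computable.option_getD (Computable.option_map Computable.decode
      (hn.comp (Computable.fst.comp Computable.snd))) (Computable.const 0)
  have h2 : Computable fun k : ℕ => ((decode k : Option (α × β)).map g).getD 0 :=
    Computable.option_getD (Computable.option_map Computable.decode
      (hg.comp Computable.snd)) (Computable.const 0)
  have h3 : TR {chi omegaJump} fun m => if m ∈ omegaJump then 1 else 0 :=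
    Nat.RecursiveIn.oracle _ rfl
  refine (h3.comp (TR.pair (TR.of_comp h1) (TR.of_comp h2))).congr fun k => ?_
  refine if_congr ?_ rfl rfl
  unfold omegaJump
  simp only [Set.mem_ofPred_eq, Nat.unpair_pair]
  cases hk : (decode k : Option (α × β)) with
  | none => simp [UP.jumpN]
  | some x =>
    simp only [Option.map_some, Option.getD_some, Option.some.injEq]
    rw [← h]
    constructor
    · intro h4
      exact ⟨x, rfl, h4⟩
    · rintro ⟨y, rfl, h4⟩
      exact h4

theorem AR_jump {A : Set ℕ} (hA : AR fun n => n ∈ A) : AR fun e => e ∈ jump A := by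
  have h1 : AR fun e : ℕ => ∃ β : List Bool, (∀ i : ℕ, i < β.length →
      (β[i]? = some true ↔ i ∈ A)) ∧ ∃ s : ℕ,
      (Nat.Partrec.Code.evaln s (Denumerable.ofNat Nat.Partrec.Code e) (encode β)).isSome = true := by
    refine AR.ex (AR.and (AR.all (AR.imp ?_ (AR.iff ?_ ?_))) (AR.ex ?_))
    · exact AR.lt .snd (Primrec.list_length.comp (Primrec.snd.comp .fst))
    · exact AR.eq (Primrec.list_getElem?.comp (Primrec.snd.comp .fst) .snd) (.const (some true))
    · exact hA.sub .snd
    · refine AR.eq (Primrec.option_isSome.comp (Nat.Partrec.Code.primrec_evaln.comp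
        (Primrec.pair (Primrec.pair .snd ((Primrec.ofNat _).comp (Primrec.fst.comp .fst)))
          (Primrec.encode.comp (Primrec.snd.comp .fst))))) (.const true)
  refine h1.congr fun e => ?_
  unfold jump
  constructor
  · rintro ⟨β, h2, s, h3⟩
    obtain ⟨v, hv⟩ := Option.isSome_iff_exists.1 h3
    refine ⟨β.length, Part.dom_iff_mem.2 ⟨v, Nat.Partrec.Code.evaln_complete.2 ⟨s, ?_⟩⟩⟩
    rw [← bits_eq h2]
    exact hv
  · rintro ⟨ℓ, h2⟩
    obtain ⟨v, hv⟩ := Part.dom_iff_mem.1 h2
    obtain ⟨s, hs⟩ := Nat.Partrec.Code.evaln_complete.1 hv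
    refine ⟨bits A ℓ, fun i hi => ?_, s, Option.isSome_iff_exists.2 ⟨v, hs⟩⟩
    rw [bits_length] at hi
    rw [bits_get]
    simp [hi]

theorem AR_jumpN (n : ℕ) : AR fun e => e ∈ jumpN n := by
  induction n with
  | zero => exact (AR.const False).congr fun e => by simp [jumpN]
  | succ n ih => exact AR_jump ih

theorem AR_Ev (a : ℕ × ℕ) : AR (Ev a) := by
  have h1 : AR fun x : ℕ => ∃ m : ℕ, (∃ s : ℕ, Nat.Partrec.Code.evaln s
      (Denumerable.ofNat Nat.Partrec.Code a.2) x = some m) ∧ m ∈ jumpN a.1 := by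
    refine AR.ex (AR.and (AR.ex ?_) ((AR_jumpN a.1).sub .snd))
    exact AR.eq (Nat.Partrec.Code.primrec_evaln.comp (Primrec.pair (Primrec.pair .snd
      (.const _)) (Primrec.fst.comp .fst))) (Primrec.option_some.comp (Primrec.snd.comp .fst))
  refine h1.congr fun x => ?_
  unfold Ev
  constructor
  · rintro ⟨m, ⟨s, hs⟩, hm⟩
    exact ⟨m, Nat.Partrec.Code.evaln_complete.2 ⟨s, hs⟩, hm⟩
  · rintro ⟨m, hs, hm⟩
    obtain ⟨s, hs⟩ := Nat.Partrec.Code.evaln_complete.1 hs
    exact ⟨m, ⟨s, hs⟩, hm⟩

section uar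

variable {α β γ : Type*} [Primcodable α] [Primcodable β] [Primcodable γ]

theorem UAR.memb [DecidableEq γ] {f : α × β → γ} {g : α × β → List γ} (hf : Primrec f)
    (hg : Primrec g) : UAR fun a b => f (a, b) ∈ g (a, b) := by
  have h1 : Primrec fun x : α × β × ℕ => decide ((g (x.1, x.2.1))[x.2.2]? = some (f (x.1, x.2.1))) :=
    (Primrec.eq.comp (Primrec.list_getElem?.comp (hg.comp (Primrec.pair .fst
      (Primrec.fst.comp .snd))) (Primrec.snd.comp .snd)) (Primrec.option_some.comp
        (hf.comp (Primrec.pair .fst (Primrec.fst.comp .snd))))).decide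
  refine (UAR.ex (UAR.comp (f := fun x : α × β × ℕ =>
    decide ((g (x.1, x.2.1))[x.2.2]? = some (f (x.1, x.2.1)))) h1.to_comp)).congr fun a b => ?_
  simp only [decide_eq_true_eq]
  exact List.mem_iff_getElem?.symm

theorem UAR.In {A : α → β × ℕ → Prop} (hA : UAR A) {f : α × β → List ℕ} (hf : Primrec f) :
    UAR fun (a : α) (b : β) => AC.In (fun r => A a (b, r)) (f (a, b)) := by
  have h1 : UAR fun (a : α) (x : β × ℕ) => x.2 ∈ FSl (f (a, x.1)) :=
    UAR.memb (f := fun q : α × β × ℕ => q.2.2) (g := fun q : α × β × ℕ => FSl (f (q.1, q.2.1)))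
      (Primrec.snd.comp .snd) (FSl_prim.comp (hf.comp (Primrec.pair .fst (Primrec.fst.comp .snd))))
  exact UAR.all (h1.imp hA)

theorem UAR.V {A : α → ℕ → Prop} (hA : UAR A) : UAR fun a (_ : Unit) => AC.V (A a) := by
  have h2 : UAR fun (a : α) (q : (Unit × List ℕ)) => AC.In (A a) q.2 := by
    have h3 : UAR fun (a : α) (q : (Unit × List ℕ) × ℕ) => A a q.2 :=
      hA.subst (k := fun a : α => a) (h := fun x : α × ((Unit × List ℕ) × ℕ) => x.2.2)
        Computable.id (Computable.snd.comp Computable.snd)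
    exact UAR.In h3 (f := fun x : α × (Unit × List ℕ) => x.2.2) (Primrec.snd.comp .snd)
  have h4 : UAR fun (a : α) (q : ((Unit × List ℕ) × ℕ) × ℕ) => AC.In (A a) (q.1.1.2 ++ [q.2]) := by
    have h3 : UAR fun (a : α) (q : (((Unit × List ℕ) × ℕ) × ℕ) × ℕ) => A a q.2 :=
      hA.subst (k := fun a : α => a) (h := fun x : α × ((((Unit × List ℕ) × ℕ) × ℕ) × ℕ) => x.2.2)
        Computable.id (Computable.snd.comp Computable.snd)
    exact UAR.In h3 (f := fun x : α × (((Unit × List ℕ) × ℕ) × ℕ) => x.2.1.1.2 ++ [x.2.2])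
      (Primrec.list_append.comp (Primrec.snd.comp (Primrec.fst.comp (Primrec.fst.comp .snd)))
        (Primrec.list_cons.comp (Primrec.snd.comp .snd) (.const [])))
  have h5 : UAR fun (a : α) (q : ((Unit × List ℕ) × ℕ) × ℕ) => q.1.2 < q.2 ∧
      AC.In (A a) (q.1.1.2 ++ [q.2]) := by
    refine UAR.and ?_ h4
    refine (UAR.comp (f := fun x : α × (((Unit × List ℕ) × ℕ) × ℕ) =>
      decide (x.2.1.2 < x.2.2)) ?_).congr fun a b => by simp
    exact ((Primrec.nat_lt.comp (Primrec.snd.comp (Primrec.fst.comp .snd))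
      (Primrec.snd.comp .snd)).decide).to_comp
  exact UAR.all (h2.imp (UAR.all (UAR.ex h5)))

end uar

/-- a record of the construction: the index of the reservoir, the data `(S, N, pool)` of the
stage, and the bound for the next stage -/
abbrev Rec := (ℕ × ℕ) × (List ℕ × ℕ × List ℕ) × ℕ

/-- a candidate for the next stage: index and pool -/
abbrev Cand := (ℕ × ℕ) × List ℕ

section seq

variable {κ : Type*} (c : ℕ → κ)

/-- `z` is a good next step after `d` -/
def Good (d : Rec) (z : Cand) : Prop :=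
  V (Ev z.1) ∧ (∀ x, Ev z.1 x → Ev d.1 x) ∧
    ∀ x, Ev z.1 x → ∃ E, CovE c (nextS d.2.1.1 d.2.1.2.2) d.2.2 z.2 E x

/-- the next record -/
def upd (d : Rec) (z : Cand) : Rec :=
  (z.1, (nextS d.2.1.1 d.2.1.2.2, d.2.2, z.2), d.2.2 + z.2.sum + 1)

theorem nextS_prim : Primrec fun q : List ℕ × List ℕ => nextS q.1 q.2 := by
  refine Primrec.list_flatMap .fst (Primrec.list_map (Primrec.list_cons.comp (.const 0)
    (Primrec.snd.comp .fst)) ?_)
  exact Primrec.nat_add.comp (Primrec.snd.comp .fst) .snd

theorem sum_prim : Primrec fun l : List ℕ => l.sum := by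
  refine (Primrec.list_foldr (f := fun l : List ℕ => l) (g := fun _ => 0)
    (h := fun _ (p : ℕ × ℕ) => p.1 + p.2) Primrec.id (Primrec.const 0)
    (Primrec.nat_add.comp (Primrec.fst.comp .snd) (Primrec.snd.comp .snd))).of_eq fun l => ?_
  induction l with
  | nil => rfl
  | cons a l ih => simp [← ih]

theorem upd_prim : Primrec fun q : Rec × Cand => upd q.1 q.2 := by
  have hS : Primrec fun q : Rec × Cand => nextS q.1.2.1.1 q.1.2.1.2.2 :=
    nextS_prim.comp (Primrec.pair (Primrec.fst.comp (Primrec.fst.comp (Primrec.snd.comp .fst)))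
      (Primrec.snd.comp (Primrec.snd.comp (Primrec.fst.comp (Primrec.snd.comp .fst)))))
  exact Primrec.pair (Primrec.fst.comp .snd) (Primrec.pair (Primrec.pair hS (Primrec.pair
    (Primrec.snd.comp (Primrec.snd.comp .fst)) (Primrec.snd.comp .snd)))
    (Primrec.succ.comp (Primrec.nat_add.comp (Primrec.snd.comp (Primrec.snd.comp .fst))
      (sum_prim.comp (Primrec.snd.comp .snd)))))

theorem UAR_Good [Finite κ] {c : ℕ → κ} (hc : ∀ i, AR fun x => c x = i) :
    UAR fun (q : Rec × Cand) (_ : Unit) => Good c q.1 q.2 := by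
  refine UAR.and ?_ (UAR.and ?_ ?_)
  · exact (UAR.V UAR_Ev).subst (k := fun q : Rec × Cand => q.2.1) (h := fun x => x.2)
      (Computable.fst.comp Computable.snd) Computable.snd
  · have h1 : UAR fun (q : Rec × Cand) (x : Unit × ℕ) => Ev q.2.1 x.2 :=
      UAR_Ev.subst (k := fun q : Rec × Cand => q.2.1)
        (h := fun x : (Rec × Cand) × (Unit × ℕ) => x.2.2)
        (Computable.fst.comp Computable.snd) (Computable.snd.comp Computable.snd)
    have h2 : UAR fun (q : Rec × Cand) (x : Unit × ℕ) => Ev q.1.1 x.2 :=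
      UAR_Ev.subst (k := fun q : Rec × Cand => q.1.1)
        (h := fun x : (Rec × Cand) × (Unit × ℕ) => x.2.2)
        (Computable.fst.comp Computable.fst) (Computable.snd.comp Computable.snd)
    exact UAR.all (h1.imp h2)
  · have h1 : UAR fun (q : Rec × Cand) (x : Unit × ℕ) => Ev q.2.1 x.2 :=
      UAR_Ev.subst (k := fun q : Rec × Cand => q.2.1)
        (h := fun x : (Rec × Cand) × (Unit × ℕ) => x.2.2)
        (Computable.fst.comp Computable.snd) (Computable.snd.comp Computable.snd)
    have h2 : UAR fun (q : Rec × Cand) (x : (Unit × ℕ) × List ℕ) =>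
        CovE c (nextS q.1.2.1.1 q.1.2.1.2.2) q.1.2.2 q.2.2 x.2 x.1.2 := by
      have hS : Primrec fun q : Rec × Cand => nextS q.1.2.1.1 q.1.2.1.2.2 :=
        nextS_prim.comp (Primrec.pair (Primrec.fst.comp (Primrec.fst.comp
          (Primrec.snd.comp .fst)))
          (Primrec.snd.comp (Primrec.snd.comp (Primrec.fst.comp (Primrec.snd.comp .fst)))))
      have hD : Primrec fun y : (Rec × Cand) × ((Unit × ℕ) × List ℕ) =>
          (((nextS y.1.1.2.1.1 y.1.1.2.1.2.2, y.1.1.2.2, y.1.2.2), y.2.2, y.2.1.2) :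
            (List ℕ × ℕ × List ℕ) × List ℕ × ℕ) :=
        Primrec.pair (Primrec.pair (hS.comp .fst) (Primrec.pair (Primrec.snd.comp
          (Primrec.snd.comp (Primrec.fst.comp .fst))) (Primrec.snd.comp (Primrec.snd.comp .fst))))
          (Primrec.pair (Primrec.snd.comp .snd) (Primrec.snd.comp (Primrec.fst.comp .snd)))
      have h3 : UAR fun (_ : Unit) (y : (Rec × Cand) × ((Unit × ℕ) × List ℕ)) =>
          CovE c (nextS y.1.1.2.1.1 y.1.1.2.1.2.2) y.1.1.2.2 y.1.2.2 y.2.2 y.2.1.2 :=
        UAR.of_AR ((AR_CovE hc).sub hD)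
      obtain ⟨n, g, -, hg, h4⟩ := h3
      exact ⟨fun _ => n (), fun y => g ((), y), Computable.const _,
        hg.comp ((Computable.const ()).pair Computable.id), fun a b => h4 () (a, b)⟩
    exact UAR.all (h1.imp (UAR.ex h2))

/-- a default record -/
def dflt (a₀ : ℕ × ℕ) : Rec := (a₀, ([0], 0, []), 0)

/-- last record of a list -/
def lastRec (a₀ : ℕ × ℕ) (L : List Rec) : Rec := L.getD (L.length - 1) (dflt a₀)

theorem lastRec_prim (a₀ : ℕ × ℕ) : Primrec (lastRec a₀) :=
  (Primrec.list_getD (dflt a₀)).comp .id (Primrec.nat_sub.comp (Primrec.list_length) (.const 1))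

theorem lastRec_pre (a₀ : ℕ × ℕ) (D : ℕ → Rec) (n : ℕ) :
    lastRec a₀ (pre D (n + 1)) = D n := by
  unfold lastRec
  rw [pre_length, pre_succ]
  simp [List.getD_eq_getElem?_getD]

/-- **the sequence of records**, computable from the omega jump -/
theorem exists_seq [Finite κ] {c : ℕ → κ} (hc : ∀ i, AR fun x => c x = i) :
    ∃ (a₀ : ℕ × ℕ) (D : ℕ → Rec), D 0 = dflt a₀ ∧ V (Ev a₀) ∧
      (∀ n, ∃ z, Good c (D n) z ∧ D (n + 1) = upd (D n) z) ∧
      TR {chi omegaJump} fun n => encode (pre D (n + 1)) := by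
  classical
  have hpos : AR fun x : ℕ => 0 < x := AR.lt (.const 0) .id
  have hposV : V fun x : ℕ => 0 < x := by
    intro D hD N
    refine ⟨N + 1, by omega, fun r hr => ?_⟩
    rcases mem_FSl_append.1 hr with h | ⟨a, ha, b, hb, rfl⟩
    · exact hD r h
    · rw [mem_FSl_singleton.1 hb]
      omega
  obtain ⟨a₀, ha₀⟩ := exists_index hpos
  have e0 : (fun x : ℕ => 0 < x) = Ev a₀ := funext fun x => propext (ha₀ x)
  -- existence of the next step
  have hnext : ∀ d : Rec, V (Ev d.1) → ∃ z : Cand, Good c d z := by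
    intro d hV
    obtain ⟨A', pool, h1, h2, h3, h4⟩ := exists_pool hc (AR_Ev d.1) hV
      (nextS d.2.1.1 d.2.1.2.2) d.2.2
    obtain ⟨a, ha⟩ := exists_index h1
    have ea : A' = Ev a := funext fun x => propext (ha x)
    rw [ea] at h2 h3 h4
    exact ⟨(a, pool), h2, h3, h4⟩
  let EX : List Rec → Prop := fun L => ∃ k, Good c (lastRec a₀ L) (Denumerable.ofNat Cand k)
  let nz : List Rec → ℕ := fun L => if h : EX L then Nat.find h else 0
  let stp : List Rec → ℕ → List Rec := fun L k =>
    L ++ [upd (lastRec a₀ L) (Denumerable.ofNat Cand k)]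
  have hstp : Computable fun q : ℕ => encode (stp (Denumerable.ofNat (List Rec) q.unpair.1)
      q.unpair.2) := by
    have hL : Primrec fun q : ℕ => Denumerable.ofNat (List Rec) q.unpair.1 :=
      (Primrec.ofNat _).comp (Primrec.fst.comp .unpair)
    have hz : Primrec fun q : ℕ => Denumerable.ofNat Cand q.unpair.2 :=
      (Primrec.ofNat _).comp (Primrec.snd.comp .unpair)
    exact (Primrec.encode.comp (Primrec.list_append.comp hL (Primrec.list_cons.comp
      (upd_prim.comp (Primrec.pair ((lastRec_prim a₀).comp hL) hz)) (.const [])))).to_comp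
  let LL : ℕ → List Rec := fun n => Nat.rec [dflt a₀] (fun _ L => stp L (nz L)) n
  have hLL0 : LL 0 = [dflt a₀] := rfl
  have hLLs : ∀ n, LL (n + 1) = stp (LL n) (nz (LL n)) := fun n => rfl
  have hlast : ∀ L d, lastRec a₀ (L ++ [d]) = d := by
    intro L d
    unfold lastRec
    rw [List.length_append, List.length_singleton, Nat.add_sub_cancel]
    simp [List.getD_eq_getElem?_getD]
  have hDs : ∀ n, lastRec a₀ (LL (n + 1)) = upd (lastRec a₀ (LL n))
      (Denumerable.ofNat Cand (nz (LL n))) := by
    intro n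
    rw [hLLs]
    exact hlast _ _
  have hVD : ∀ n, V (Ev (lastRec a₀ (LL n)).1) ∧ EX (LL n) := by
    intro n
    have hEX : ∀ L, V (Ev (lastRec a₀ L).1) → EX L := by
      intro L hL
      obtain ⟨z, hz⟩ := hnext _ hL
      exact ⟨encode z, by rwa [Denumerable.ofNat_encode]⟩
    induction n with
    | zero =>
      have h1 : V (Ev (lastRec a₀ (LL 0)).1) := by
        have h2 : lastRec a₀ (LL 0) = dflt a₀ := hlast [] _
        rw [h2]
        change V (Ev a₀)
        rw [← e0]
        exact hposV
      exact ⟨h1, hEX _ h1⟩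
    | succ n ih =>
      have h1 : V (Ev (lastRec a₀ (LL (n + 1))).1) := by
        rw [hDs]
        have h2 : nz (LL n) = Nat.find ih.2 := dif_pos ih.2
        rw [h2]
        exact (Nat.find_spec ih.2).1
      exact ⟨h1, hEX _ h1⟩
  have hpre : ∀ n, LL n = pre (fun n => lastRec a₀ (LL n)) (n + 1) := by
    intro n
    induction n with
    | zero =>
      rw [pre_succ]
      have h2 : lastRec a₀ (LL 0) = dflt a₀ := hlast [] _
      simp only [pre_zero, List.nil_append, h2]
      exact hLL0
    | succ n ih =>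
      rw [pre_succ, ← ih, hDs]
  refine ⟨a₀, fun n => lastRec a₀ (LL n), hlast [] _, by rw [← e0]; exact hposV,
    fun n => ⟨Denumerable.ofNat Cand (nz (LL n)), ?_, hDs n⟩, ?_⟩
  · have h2 : nz (LL n) = Nat.find (hVD n).2 := dif_pos (hVD n).2
    rw [h2]
    exact Nat.find_spec (hVD n).2
  · -- computing the sequence
    have hU : UAR fun (q : List Rec × Cand) (_ : Unit) => Good c (lastRec a₀ q.1) q.2 :=
      (UAR_Good hc).subst (k := fun q : List Rec × Cand => (lastRec a₀ q.1, q.2))
        (h := fun x => x.2) (((lastRec_prim a₀).to_comp.comp Computable.fst).pair Computable.snd)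
        Computable.snd
    have hF := hU.dec
    set F : ℕ → ℕ := fun k => if ∃ x : (List Rec × Cand) × Unit,
      (decode k : Option ((List Rec × Cand) × Unit)) = some x ∧
        Good c (lastRec a₀ x.1.1) x.1.2 then 1 else 0 with hFdef
    have hFval : ∀ L : List Rec, ∀ k : ℕ, F (Nat.pair (Nat.pair (encode L) k) 0) =
        if Good c (lastRec a₀ L) (Denumerable.ofNat Cand k) then 1 else 0 := by
      intro L k
      have e1 : Nat.pair (Nat.pair (encode L) k) 0 =
          encode (((L, Denumerable.ofNat Cand k), ()) : (List Rec × Cand) × Unit) := by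
        have h0 : encode (Denumerable.ofNat Cand k) = k := Denumerable.encode_ofNat k
        change _ = Nat.pair (Nat.pair (encode L) (encode (Denumerable.ofNat Cand k))) 0
        rw [h0]
      rw [hFdef]
      simp only
      rw [e1, encodek]
      refine if_congr ?_ rfl rfl
      simp
    have hf1 : TR {chi omegaJump} fun q => 1 - F (Nat.pair q 0) := by
      have h1 : Computable fun m : ℕ => 1 - m := (Primrec.nat_sub.comp (.const 1) .id).to_comp
      have h2 : Computable fun q : ℕ => Nat.pair q 0 :=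
        (Primrec₂.natPair.comp .id (.const 0)).to_comp
      exact (TR.of_comp h1).comp (TR.comp hF (TR.of_comp h2))
    have hH := Nat.RecursiveIn.comp (TR.of_comp (O := {chi omegaJump}) hstp)
      (Nat.RecursiveIn.pair (TR.of_comp (O := {chi omegaJump}) Computable.id)
        (Nat.RecursiveIn.rfind hf1))
    have hH' : Nat.RecursiveIn {chi omegaJump} fun q : ℕ =>
        (Nat.pair <$> Part.some (id q.unpair.2.unpair.2) <*> Nat.rfind fun n =>
          (fun m => m = 0) <$> Part.some (1 - F (Nat.pair (Nat.pair q.unpair.2.unpair.2 n) 0)))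
          >>= fun q : ℕ => Part.some (encode (stp (Denumerable.ofNat (List Rec) q.unpair.1)
            q.unpair.2)) := by
      have h3 : Computable fun q : ℕ => q.unpair.2.unpair.2 :=
        (Primrec.snd.comp (Primrec.unpair.comp (Primrec.snd.comp .unpair))).to_comp
      refine (Nat.RecursiveIn.comp hH (TR.of_comp h3)).of_eq fun q => ?_
      exact Part.bind_some _ _
    have hrec := Nat.RecursiveIn.prec (TR.of_comp (O := {chi omegaJump})
      (Computable.const (encode [dflt a₀]))) hH'
    have hfin := Nat.RecursiveIn.comp hrec (TR.of_comp (O := {chi omegaJump})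
      (g := fun n => Nat.pair 0 n) (Primrec₂.natPair.comp (.const 0) .id).to_comp)
    refine hfin.of_eq fun n => ?_
    change _ = Part.some (encode (pre (fun n => lastRec a₀ (LL n)) (n + 1)))
    rw [← hpre n]
    refine (Part.bind_some _ _).trans ?_
    simp only [Nat.unpair_pair]
    induction n with
    | zero => rfl
    | succ n ih =>
      simp only at ih ⊢
      rw [ih]
      refine (Part.bind_some _ _).trans ?_
      have hfind : Nat.find (hVD n).2 ∈ (Nat.rfind fun k => (fun m => decide (m = 0)) <$>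
          Part.some (1 - F (Nat.pair (Nat.pair (encode (LL n)) k) 0)) : Part ℕ) := by
        rw [Nat.mem_rfind]
        refine ⟨?_, fun {m} hm => ?_⟩
        · rw [hFval, if_pos (Nat.find_spec (hVD n).2)]
          simp
        · rw [hFval, if_neg (Nat.find_min (hVD n).2 hm)]
          simp
      have hsome := Part.eq_some_iff.2 hfind
      have h2 : nz (LL n) = Nat.find (hVD n).2 := dif_pos (hVD n).2
      simp only [id]
      rw [hsome]
      rw [hLLs, h2]
      simp [Seq.seq]

end seq

end Pool.Agent.Work.MP_69fea5_lc.UP
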