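import Pool.Agent.Work.MP_69fea5_lc.UP.Seq

/-!
The tree of solutions is computable from the omega jump.
-/

set_option autoImplicit false

namespace Pool.Agent.Work.MP_69fea5_lc.UP

open Encodable
open Pool.Agent.Work.MP_69fea5_lc.AC

/-- the part of the set coded by `τ` in `(N, N']` -/
def Eof (τ : List Bool) (N N' : ℕ) : List ℕ :=
  (List.range (N' + 1)).filter fun i => decide (N < i ∧ τ[i]? = some true)

theorem Eof_congr {τ τ' : List Bool} {N N' : ℕ} (h : ∀ i ≤ N', τ[i]? = τ'[i]?) :
    Eof τ N N' = Eof τ' N N' := by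
  unfold Eof
  refine List.filter_congr fun i hi => ?_
  rw [h i (by have := List.mem_range.1 hi; omega)]

theorem Eof_bits {X : Set ℕ} {ℓ N N' : ℕ} (h : N' < ℓ) : Eof (bits X ℓ) N N' = part X N N' := by
  classical
  unfold Eof part
  refine List.filter_congr fun i hi => ?_
  have h1 : i < ℓ := by have := List.mem_range.1 hi; omega
  have h2 := bits_get X ℓ i true
  rw [decide_eq_decide, h2]
  simp [h1]

/-- initial part of a list of records -/
def front (L : List Rec) (ℓ : ℕ) : List Rec := L.filter fun d => decide (d.2.2 < ℓ)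

/-- the tree -/
def Tr {κ : Type*} (c : ℕ → κ) (a₀ : ℕ × ℕ) (L : List Rec) (τ : List Bool) : Prop :=
  τ[0]? ≠ some true ∧ ∃ x, Ev (lastRec a₀ (front L τ.length)).1 x ∧
    ∀ d ∈ front L τ.length, d.2.1.2.2 ≠ [] →
      CovE c d.2.1.1 d.2.1.2.1 d.2.1.2.2 (Eof τ d.2.1.2.1 d.2.2) x

theorem front_prim : Primrec fun q : List Rec × ℕ => front q.1 q.2 := by
  have h : PrimrecRel fun (d : Rec) (ℓ : ℕ) => d.2.2 < ℓ :=
    Primrec.nat_lt.comp (Primrec.snd.comp (Primrec.snd.comp .fst)) .snd
  exact h.listFilter

theorem Eof_prim : Primrec fun q : List Bool × ℕ × ℕ => Eof q.1 q.2.1 q.2.2 := by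
  have h : PrimrecRel fun (i : ℕ) (q : List Bool × ℕ) => q.2 < i ∧ q.1[i]? = some true := by
    refine PrimrecPred.and ?_ ?_
    · exact Primrec.nat_lt.comp (Primrec.snd.comp .snd) .fst
    · exact Primrec.eq.comp (Primrec.list_getElem?.comp (Primrec.fst.comp .snd) .fst)
        (.const (some true))
  have h1 := h.listFilter
  have h2 : Primrec fun q : List Bool × ℕ × ℕ => (List.range (q.2.2 + 1)).filter
      (fun i => decide (q.2.1 < i ∧ q.1[i]? = some true)) :=
    h1.comp (Primrec.list_range.comp (Primrec.succ.comp (Primrec.snd.comp .snd)))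
      (Primrec.pair .fst (Primrec.fst.comp .snd))
  exact h2

theorem UAR_Tr {κ : Type*} [Finite κ] {c : ℕ → κ} (hc : ∀ i, AR fun x => c x = i) (a₀ : ℕ × ℕ) :
    UAR fun (q : List Rec × List Bool) (_ : Unit) => Tr c a₀ q.1 q.2 := by
  have hfront : Primrec fun q : List Rec × List Bool => front q.1 q.2.length :=
    front_prim.comp (Primrec.pair .fst (Primrec.list_length.comp .snd))
  refine UAR.and ?_ ?_
  · have h1 : Primrec fun x : (List Rec × List Bool) × Unit =>
        decide (x.1.2[0]? = some true) :=
      (Primrec.eq.comp (Primrec.list_getElem?.comp (Primrec.snd.comp .fst) (.const 0))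
        (.const (some true))).decide
    exact (UAR.comp (f := fun x : (List Rec × List Bool) × Unit =>
      decide (x.1.2[0]? = some true)) h1.to_comp).not.congr fun a b => by simp
  · have h1 : UAR fun (q : List Rec × List Bool) (x : Unit × ℕ) =>
        Ev (lastRec a₀ (front q.1 q.2.length)).1 x.2 :=
      UAR_Ev.subst (k := fun q : List Rec × List Bool =>
        (lastRec a₀ (front q.1 q.2.length)).1)
        (h := fun x : (List Rec × List Bool) × (Unit × ℕ) => x.2.2)
        (Primrec.fst.comp ((lastRec_prim a₀).comp hfront)).to_comp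
        (Computable.snd.comp Computable.snd)
    have hAR : AR fun y : (List Rec × List Bool) × ℕ => ∀ d ∈ front y.1.1 y.1.2.length,
        d.2.1.2.2 ≠ [] → CovE c d.2.1.1 d.2.1.2.1 d.2.1.2.2
          (Eof y.1.2 d.2.1.2.1 d.2.2) y.2 := by
      refine AR.allIn (g := fun y : (List Rec × List Bool) × ℕ => front y.1.1 y.1.2.length)
        (hfront.comp .fst) (AR.imp ?_ ?_)
      · exact (AR.eq (Primrec.snd.comp (Primrec.snd.comp (Primrec.fst.comp
          (Primrec.snd.comp .snd)))) (.const [])).not
      · have hE : Primrec fun y : ((List Rec × List Bool) × ℕ) × Rec =>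
            Eof y.1.1.2 y.2.2.1.2.1 y.2.2.2 :=
          Eof_prim.comp (Primrec.pair (Primrec.snd.comp (Primrec.fst.comp .fst))
            (Primrec.pair (Primrec.fst.comp (Primrec.snd.comp (Primrec.fst.comp
              (Primrec.snd.comp .snd)))) (Primrec.snd.comp (Primrec.snd.comp .snd))))
        exact (AR_CovE hc).sub (f := fun y : ((List Rec × List Bool) × ℕ) × Rec =>
          (y.2.2.1, (Eof y.1.1.2 y.2.2.1.2.1 y.2.2.2, y.1.2)))
          (Primrec.pair (Primrec.fst.comp (Primrec.snd.comp .snd))
            (Primrec.pair hE (Primrec.snd.comp .fst)))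
    have h2 : UAR fun (q : List Rec × List Bool) (x : Unit × ℕ) =>
        ∀ d ∈ front q.1 q.2.length,
        d.2.1.2.2 ≠ [] → CovE c d.2.1.1 d.2.1.2.1 d.2.1.2.2
          (Eof q.2 d.2.1.2.1 d.2.2) x.2 := by
      obtain ⟨n, g, -, hg, h4⟩ := UAR.of_AR (α := Unit) hAR
      exact ⟨fun _ => n (), fun y => g ((), (y.1, y.2.2)), Computable.const _,
        hg.comp ((Computable.const ()).pair (Computable.fst.pair
          (Computable.snd.comp Computable.snd))), fun a b => h4 () (a, b.2)⟩
    exact UAR.ex (h1.and h2)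

theorem sorted_ext {l m : List ℕ} (hl : l.Pairwise fun a b => a < b)
    (hm : m.Pairwise fun a b => a < b) (h : ∀ a, a ∈ l ↔ a ∈ m) : l = m := by
  have hp : l.Perm m := (List.perm_ext_iff_of_nodup (hl.imp fun h => Nat.ne_of_lt h)
    (hm.imp fun h => Nat.ne_of_lt h)).2 h
  exact hp.eq_of_pairwise (fun a b _ _ h1 h2 => absurd h1 (by omega)) hl hm

/-- The trees: a computable (from the omega jump) infinite binary tree all of whose paths are
solutions. -/
theorem exists_tree {κ : Type*} [Finite κ] {c : ℕ → κ} (hc : ∀ i, AR fun x => c x = i) :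
    ∃ t : List Bool → Bool, ComputableIn {chi omegaJump} t ∧
      (∀ (σ : List Bool) (b : Bool), t (σ ++ [b]) = true → t σ = true) ∧
      (∀ n, ∃ σ : List Bool, σ.length = n ∧ t σ = true) ∧
      ∀ f : ℕ → Bool, (∀ n, t ((List.range n).map f) = true) →
        {n | f n = true}.Infinite ∧ (∀ x ∈ {n | f n = true}, 0 < x) ∧
        ∃ i, ∀ F : Finset ℕ, F.Nonempty → (↑F : Set ℕ) ⊆ {n | f n = true} →
          c (∑ x ∈ F, x) = i := by
  classical
  obtain ⟨a₀, D, hD0, hV0, hD, hDrec⟩ := exists_seq hc
  -- facts about the sequence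
  have hs : ∀ n, (D n).2.2 < (D (n + 1)).2.2 := by
    intro n
    obtain ⟨z, -, hz⟩ := hD n
    rw [hz]
    simp only [upd]
    omega
  have hN0 : (D 0).2.2 = 0 := by rw [hD0]; rfl
  have hNn : ∀ n, (D (n + 1)).2.1.2.1 = (D n).2.2 := by
    intro n
    obtain ⟨z, -, hz⟩ := hD n
    rw [hz]
    rfl
  have hge : ∀ n, n ≤ (D n).2.2 := by
    intro n
    induction n with
    | zero => exact Nat.zero_le _
    | succ n ih => have := hs n; omega
  have hmono : ∀ a b, a ≤ b → (D a).2.2 ≤ (D b).2.2 := fun a b h => by
    induction h with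
    | refl => exact le_rfl
    | step _ ih => exact ih.trans (hs _).le
  have hAs : ∀ n x, Ev (D (n + 1)).1 x → Ev (D n).1 x := by
    intro n x
    obtain ⟨z, hg, hz⟩ := hD n
    rw [hz]
    exact hg.2.1 x
  have hAm : ∀ a b x, a ≤ b → Ev (D b).1 x → Ev (D a).1 x := fun a b x h => by
    induction h with
    | refl => exact fun h => h
    | step _ ih => exact fun h => ih (hAs _ _ h)
  have hVn : ∀ n, V (Ev (D n).1) := by
    intro n
    cases n with
    | zero =>
      rw [hD0]
      exact hV0
    | succ n =>
      obtain ⟨z, hg, hz⟩ := hD n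
      rw [hz]
      exact hg.1
  have hcov : ∀ n x, Ev (D (n + 1)).1 x → ∃ E, CovE c (D (n + 1)).2.1.1 (D n).2.2
      (D (n + 1)).2.1.2.2 E x ∧ ∀ e ∈ E, e ≤ (D (n + 1)).2.2 := by
    intro n x hx
    obtain ⟨z, hg, hz⟩ := hD n
    rw [hz] at hx ⊢
    obtain ⟨E, hE⟩ := hg.2.2 x hx
    refine ⟨E, hE, fun e he => ?_⟩
    have h1 : e ∈ z.2 := (hE.2 e (mem_FSl.2 ⟨[e], List.singleton_sublist.2 he, by simp,
      by simp⟩)).1
    have h2 : e ≤ z.2.sum := List.le_sum_of_mem h1
    simp only [upd]
    omega
  have hpool : ∀ n, (D (n + 1)).2.1.2.2 ≠ [] := by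
    intro n
    obtain ⟨x, -, hx⟩ := hVn (n + 1) [] (In_nil _) 0
    obtain ⟨E, hE, -⟩ := hcov n x (hx x (mem_FSl_singleton.2 rfl))
    obtain ⟨e, he⟩ := List.exists_mem_of_ne_nil _ hE.1.1
    exact List.ne_nil_of_mem (hE.2 e (mem_FSl.2 ⟨[e], List.singleton_sublist.2 he, by simp,
      by simp⟩)).1
  -- the initial part
  have hM : ∀ ℓ, ∃ M, M ≤ ℓ ∧ (∀ n, (D n).2.2 < ℓ ↔ n < M) ∧
      front (pre D (ℓ + 1)) ℓ = pre D M := by
    intro ℓ
    have hex : ∃ n, ℓ ≤ (D n).2.2 := ⟨ℓ, hge ℓ⟩
    have hiff : ∀ n, (D n).2.2 < ℓ ↔ n < Nat.find hex := by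
      intro n
      constructor
      · intro h
        by_contra h1
        have h2 := hmono _ n (not_lt.1 h1)
        have h3 := Nat.find_spec hex
        omega
      · intro h
        have := Nat.find_min hex h
        omega
    have hMle : Nat.find hex ≤ ℓ := Nat.find_min' hex (hge ℓ)
    refine ⟨Nat.find hex, hMle, hiff, ?_⟩
    have key : ∀ k, (pre D k).filter (fun d => decide (d.2.2 < ℓ)) =
        pre D (min k (Nat.find hex)) := by
      intro k
      induction k with
      | zero => simp
      | succ k ih =>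
        rw [pre_succ, List.filter_append, ih]
        by_cases h : k < Nat.find hex
        · have h1 : min k (Nat.find hex) = k := by omega
          have h2 : min (k + 1) (Nat.find hex) = k + 1 := by omega
          rw [h1, h2, pre_succ]
          have h3 := (hiff k).2 h
          simp [h3]
        · have h1 : min k (Nat.find hex) = Nat.find hex := by omega
          have h2 : min (k + 1) (Nat.find hex) = Nat.find hex := by omega
          have h3 := mt (hiff k).1 h
          rw [h1, h2]
          simp only [List.filter_cons, List.filter_nil, h3, decide_false]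
          simp
    unfold front
    rw [key]
    congr 1
    omega
  have hlastpre : ∀ M, lastRec a₀ (pre D M) = D (M - 1) := by
    intro M
    cases M with
    | zero =>
      rw [hD0]
      rfl
    | succ M =>
      rw [lastRec_pre]
      rfl
  -- characterisation of the tree
  have hTr : ∀ (ℓ M : ℕ) (τ : List Bool), τ.length = ℓ → (∀ n, (D n).2.2 < ℓ ↔ n < M) →
      front (pre D (ℓ + 1)) ℓ = pre D M →
      (Tr c a₀ (pre D (τ.length + 1)) τ ↔ τ[0]? ≠ some true ∧ ∃ x, Ev (D (M - 1)).1 x ∧
        ∀ n, n + 1 < M → CovE c (D (n + 1)).2.1.1 (D n).2.2 (D (n + 1)).2.1.2.2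
          (Eof τ (D n).2.2 (D (n + 1)).2.2) x) := by
    intro ℓ M τ hτ hMiff hfront
    unfold Tr
    rw [hτ, hfront, hlastpre]
    refine and_congr_right fun _ => exists_congr fun x => and_congr_right fun _ => ?_
    constructor
    · intro h n hn
      have h1 := h (D (n + 1)) (by
        rw [pre, List.mem_map]
        exact ⟨n + 1, List.mem_range.2 hn, rfl⟩) (hpool n)
      rwa [hNn] at h1
    · intro h d hd hne
      rw [pre, List.mem_map] at hd
      obtain ⟨m, hm, rfl⟩ := hd
      cases m with
      | zero =>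
        rw [hD0] at hne
        exact absurd rfl hne
      | succ m =>
        rw [hNn]
        exact h m (List.mem_range.1 hm)
  refine ⟨fun τ => decide (Tr c a₀ (pre D (τ.length + 1)) τ), ?_, ?_, ?_, ?_⟩
  · -- computability
    have hF := (UAR_Tr hc a₀).dec
    set F : ℕ → ℕ := fun k => if ∃ x : (List Rec × List Bool) × Unit,
      (decode k : Option ((List Rec × List Bool) × Unit)) = some x ∧
        Tr c a₀ x.1.1 x.1.2 then 1 else 0 with hFdef
    have hFval : ∀ (L : List Rec) (τ : List Bool),
        F (Nat.pair (Nat.pair (encode L) (encode τ)) 0) = encode (decide (Tr c a₀ L τ)) := by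
      intro L τ
      have e1 : Nat.pair (Nat.pair (encode L) (encode τ)) 0 =
          encode (((L, τ), ()) : (List Rec × List Bool) × Unit) := rfl
      rw [hFdef]
      simp only
      rw [e1, encodek]
      by_cases h : Tr c a₀ L τ
      · rw [if_pos ⟨_, rfl, h⟩, decide_eq_true h]
        rfl
      · rw [if_neg, decide_eq_false h]
        · rfl
        · rintro ⟨x, hx, h1⟩
          rw [← Option.some.inj hx] at h1
          exact h h1
    have hlen : Computable fun m : ℕ =>
        ((decode m : Option (List Bool)).map List.length).getD 0 :=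
      Computable.option_getD (Computable.option_map Computable.decode
        (Primrec.list_length.to_comp.comp Computable.snd)) (Computable.const 0)
    have hG : TR {chi omegaJump} fun m => F (Nat.pair (Nat.pair
        (encode (pre D (((decode m : Option (List Bool)).map List.length).getD 0 + 1))) m) 0) :=
      TR.comp hF (TR.pair (TR.pair (TR.comp hDrec (TR.of_comp hlen))
        (TR.of_comp Computable.id)) (TR.of_comp (Computable.const 0)))
    have hdec : Nat.RecursiveIn {chi omegaJump} fun n : ℕ =>
        ((decode (α := List Bool) n : Option (List Bool)) : Part (List Bool)).bind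
          fun a => Part.some (encode a) := by
      have h1 : Partrec (fun a : List Bool => (Part.some a : Part (List Bool))) := Partrec.some
      exact Nat.Partrec.recursiveIn h1
    have hfin := Nat.RecursiveIn.comp hG hdec
    refine hfin.of_eq fun n => ?_
    cases hn : (decode n : Option (List Bool)) with
    | none =>
      simp
    | some τ =>
      simp only [Part.coe_some, Part.bind_some]
      refine (Part.bind_some _ _).trans ?_
      simp only [encodek, Option.map_some, Option.getD_some, hFval, Part.map_some]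
  · -- closed under initial segments
    intro σ b h
    rw [decide_eq_true_eq] at h ⊢
    obtain ⟨M', hM'1, hM'2, hM'3⟩ := hM (σ.length + 1)
    obtain ⟨M, hM1, hM2, hM3⟩ := hM σ.length
    rw [hTr (σ.length + 1) M' (σ ++ [b]) (by simp) hM'2 hM'3] at h
    rw [hTr σ.length M σ rfl hM2 hM3]
    obtain ⟨h0, x, hx, h1⟩ := h
    have hMM : M ≤ M' := by
      by_contra hlt
      have h2 := (hM2 M').2 (by omega)
      have h3 := (hM'2 M').1 (by omega)
      omega
    refine ⟨?_, x, hAm _ _ x (by omega) hx, fun n hn => ?_⟩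
    · intro h2
      refine h0 ?_
      rw [List.getElem?_append_left (List.getElem?_eq_some_iff.1 h2).1]
      exact h2
    · have h3 := h1 n (by omega)
      have h4 := (hM2 (n + 1)).2 hn
      rwa [Eof_congr (τ' := σ) (fun i hi => by
        rw [List.getElem?_append_left (by omega)])] at h3
  · -- infinite
    intro ℓ
    obtain ⟨M, hM1, hM2, hM3⟩ := hM ℓ
    obtain ⟨x, -, hx⟩ := hVn M [] (In_nil _) 0
    have hxM : Ev (D M).1 x := hx x (mem_FSl_singleton.2 rfl)
    have hE : ∀ n, ∃ E, n < M → CovE c (D (n + 1)).2.1.1 (D n).2.2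
        (D (n + 1)).2.1.2.2 E x ∧ ∀ e ∈ E, e ≤ (D (n + 1)).2.2 := by
      intro n
      by_cases h : n < M
      · obtain ⟨E, hE⟩ := hcov n x (hAm _ _ x (by omega) hxM)
        exact ⟨E, fun _ => hE⟩
      · exact ⟨[], fun h' => absurd h' h⟩
    choose E hE using hE
    let X : Set ℕ := {i | ∃ n, n < M ∧ i ∈ E n}
    refine ⟨bits X ℓ, bits_length X ℓ, ?_⟩
    rw [decide_eq_true_eq, hTr ℓ M (bits X ℓ) (bits_length X ℓ) hM2 hM3]
    refine ⟨?_, x, hAm _ _ x (by omega) hxM, fun n hn => ?_⟩
    · intro h
      rw [bits_get] at h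
      obtain ⟨n, hn, h0⟩ := h.2.1 rfl
      have := (hE n hn).1.1.2.2 0 h0
      omega
    · rw [Eof_bits ((hM2 (n + 1)).2 hn)]
      have hEn := hE n (by omega)
      have : part X (D n).2.2 (D (n + 1)).2.2 = E n := by
        refine sorted_ext (part_pairwise _ _ _) hEn.1.1.2.1.1 fun i => ?_
        rw [mem_part]
        constructor
        · rintro ⟨h1, h2, m, hm, h3⟩
          have hEm := hE m hm
          have h4 := hEm.1.1.2.2 i h3
          have h5 := hEm.2 i h3
          have hmn : m = n := by
            rcases lt_trichotomy m n with h | h | h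
            · have := hmono (m + 1) n (by omega)
              omega
            · exact h
            · have := hmono (n + 1) m (by omega)
              omega
          rw [← hmn]
          exact h3
        · intro h3
          exact ⟨hEn.1.1.2.2 i h3, hEn.2 i h3, n, by omega, h3⟩
      rw [this]
      exact hEn.1
  · -- paths are solutions
    intro f hf
    have hbits : ∀ ℓ, (List.range ℓ).map f = bits {n | f n = true} ℓ := by
      intro ℓ
      unfold bits
      refine List.map_congr_left fun i _ => ?_
      cases h : f i <;> simp [h]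
    refine solution_of_covers (S := fun n => (D (n + 1)).2.1.1)
      (pool := fun n => (D (n + 1)).2.1.2.2) (N := fun n => (D n).2.2) ?_ ?_ hN0
      (fun n => (hs n).le) ?_ ?_
    · intro n
      obtain ⟨z, -, hz⟩ := hD (n + 1)
      rw [hz]
      rfl
    · obtain ⟨z, -, hz⟩ := hD 0
      rw [hz, hD0]
      exact mem_nextS (List.mem_singleton.2 rfl) (Or.inl rfl)
    · intro h0
      obtain ⟨M, hM1, hM2, hM3⟩ := hM 1
      have h1 := hf 1
      rw [decide_eq_true_eq, hTr 1 M _ (by simp) hM2 hM3] at h1
      refine h1.1 ?_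
      rw [hbits, bits_get]
      exact ⟨by omega, by simpa using h0⟩
    · intro K
      obtain ⟨M, hM1, hM2, hM3⟩ := hM ((D K).2.2 + 1)
      have h1 := hf ((D K).2.2 + 1)
      rw [decide_eq_true_eq, hTr _ M _ (by simp) hM2 hM3] at h1
      obtain ⟨-, x, hx, h2⟩ := h1
      refine ⟨x, fun n hn => ?_⟩
      have h3 : n + 1 < M := (hM2 (n + 1)).1 (by
        have := hmono (n + 1) K (by omega)
        omega)
      have h4 := h2 n h3
      rwa [hbits, Eof_bits ((hM2 (n + 1)).2 h3)] at h4

end Pool.Agent.Work.MP_69fea5_lc.UP
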